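import Mathlib
import Pool.Agent.H80.ThetaDefs
import Pool.Agent.H80.Theta

open Pool.Agent.H80.Theta

theorem Pool.Agent.Results.MP_89dd65_gt.FailsAtFour.result :
    BddAbove (Set.range fun θ => |Theta 4 θ|) ∧
      |Theta 4 (thetaStar 4)| < ⨆ θ, |Theta 4 θ| :=
  ⟨bdd 4, main⟩
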